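import Pool.Agent.H85.TU.Targets

set_option autoImplicit false

open Set Pool.Agent.H85.TU

namespace Pool.Agent.H38.TU

section

variable {ι : Type} [Countable ι] {ar : ι → ℕ} {D : ι → Type} [∀ i, MeasurableSpace (D i)]
  [∀ i, StandardBorelSpace (D i)] {Ω : Type} [MeasurableSpace Ω]

omit [Countable ι] [∀ i, StandardBorelSpace (D i)] in
theorem meas_app {X : Ω → Str ar D ℕ} {p : Ω → ℕ → ℕ} (hX : Measurable X) (hp : Measurable p)
    (i : ι) (v : Fin (ar i) → ℕ) : Measurable fun w => X w i (p w ∘ v) := by
  have h1 : Measurable fun q : Str ar D ℕ × (Fin (ar i) → ℕ) => q.1 i q.2 :=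
    measurable_from_prod_countable_left fun u =>
      (measurable_pi_apply u).comp (measurable_pi_apply i)
  have h2 : Measurable fun w => (X w, p w ∘ v) := hX.prodMk
    (measurable_pi_lambda _ fun k => (measurable_pi_apply (v k)).comp hp)
  exact h1.comp h2

theorem meas_Tw {X : Ω → Str ar D ℕ} (hX : Measurable X) (a b : ℕ) :
    Measurable fun w => Tw (X w) a b := by
  unfold Tw Aut
  refine Measurable.forall fun i => Measurable.forall fun v => ?_
  exact Measurable.eq (meas_app hX measurable_const i v)
    ((measurable_pi_apply v).comp ((measurable_pi_apply i).comp hX))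

theorem meas_Lb {X : Ω → Str ar D ℕ} {s : Ω → ℕ → ℕ} (hX : Measurable X) (hs : Measurable s) :
    Measurable fun w => Lb (X w) (s w) := by
  have hs' : ∀ a, Measurable fun w => s w a := fun a => (measurable_pi_apply a).comp hs
  unfold Lb
  refine Measurable.and ?_ ?_
  · refine Measurable.forall fun a => Measurable.forall fun b => ?_
    exact (meas_Tw hX a b).imp ((Measurable.eq (hs' a) (hs' b)).imp measurable_const)
  · refine Measurable.forall fun a => Measurable.forall fun n => ?_
    have h1 : Measurable fun w => n < s w a :=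
      (measurable_from_top (f := fun m : ℕ => n < m)).comp (hs' a)
    exact h1.imp (Measurable.exists fun b => (meas_Tw hX a b).and (Measurable.eq_const (hs' b) n))

theorem pf_ANA : T_ANA := by
  intro ι _ ar D _ _ Y hY
  rcases hY with rfl | ⟨f, hf, rfl⟩
  · refine ⟨Empty, inferInstance, inferInstance, fun z => z.elim, fun z => z.elim,
      measurable_of_empty _, measurable_of_empty _, fun z => z.elim, ?_⟩
    intro x hx
    obtain ⟨p, _, _, _, h⟩ := hx 0 0
    exact h.elim
  · let W : Type := Str ar D ℕ × (ℕ → ℕ) × (ℕ × ℕ → (ℕ → ℕ) × (ℕ → ℕ))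
    let C : W → Prop := fun w => Lb w.1 w.2.1 ∧ ∀ a b : ℕ,
      Function.Injective (w.2.2 (a, b)).1 ∧ a ∈ range (w.2.2 (a, b)).1 ∧
        b ∈ range (w.2.2 (a, b)).1 ∧ pull w.1 (w.2.2 (a, b)).1 = f (w.2.2 (a, b)).2
    have hC : Measurable C := by
      have h1 : Measurable fun w : W => w.1 := measurable_fst
      have h2 : Measurable fun w : W => w.2.1 := measurable_fst.comp measurable_snd
      have h3 : ∀ a b : ℕ, Measurable fun w : W => (w.2.2 (a, b)).1 := fun a b =>
        measurable_fst.comp ((measurable_pi_apply (a, b)).comp (measurable_snd.comp measurable_snd))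
      have h4 : ∀ a b : ℕ, Measurable fun w : W => (w.2.2 (a, b)).2 := fun a b =>
        measurable_snd.comp ((measurable_pi_apply (a, b)).comp (measurable_snd.comp measurable_snd))
      have h5 : ∀ a b m : ℕ, Measurable fun w : W => (w.2.2 (a, b)).1 m := fun a b m =>
        (measurable_pi_apply m).comp (h3 a b)
      refine (meas_Lb h1 h2).and (Measurable.forall fun a => Measurable.forall fun b => ?_)
      refine Measurable.and ?_ (Measurable.and ?_ (Measurable.and ?_ ?_))
      · unfold Function.Injective
        exact Measurable.forall fun m => Measurable.forall fun n =>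
          (Measurable.eq (h5 a b m) (h5 a b n)).imp measurable_const
      · exact Measurable.exists fun n => Measurable.eq_const (h5 a b n) a
      · exact Measurable.exists fun n => Measurable.eq_const (h5 a b n) b
      · have h6 : (fun w : W => pull w.1 (w.2.2 (a, b)).1 = f (w.2.2 (a, b)).2) = fun w : W =>
            ∀ i v, w.1 i ((w.2.2 (a, b)).1 ∘ v) = f (w.2.2 (a, b)).2 i v := by
          funext w
          exact propext ⟨fun h i v => by rw [← h]; rfl, fun h => by
            funext i v
            exact h i v⟩
        rw [h6]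
        refine Measurable.forall fun i => Measurable.forall fun v => ?_
        exact Measurable.eq (meas_app h1 (h3 a b) i v)
          ((measurable_pi_apply v).comp ((measurable_pi_apply i).comp (hf.comp (h4 a b))))
    have hCs : MeasurableSet {w : W | C w} := measurableSet_setOfPred.mpr hC
    refine ⟨{w : W | C w}, inferInstance, hCs.standardBorel, fun ζ => ζ.1.1, fun ζ => ζ.1.2.1,
      measurable_fst.comp measurable_subtype_coe,
      (measurable_fst.comp measurable_snd).comp measurable_subtype_coe, ?_, ?_⟩
    · rintro ⟨w, hw⟩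
      refine ⟨fun a b => ?_, hw.1⟩
      obtain ⟨h1, h2, h3, h4⟩ := hw.2 a b
      exact ⟨_, h1, h2, h3, ⟨_, h4.symm⟩⟩
    · intro x hx s hs
      have h1 : ∀ ab : ℕ × ℕ, ∃ py : (ℕ → ℕ) × (ℕ → ℕ), Function.Injective py.1 ∧
          ab.1 ∈ range py.1 ∧ ab.2 ∈ range py.1 ∧ pull x py.1 = f py.2 := by
        rintro ⟨a, b⟩
        obtain ⟨p, h1, h2, h3, ⟨y, h4⟩⟩ := hx a b
        exact ⟨(p, y), h1, h2, h3, h4.symm⟩
      choose g hg using h1
      refine ⟨⟨(x, s, g), hs, fun a b => ?_⟩, rfl, rfl⟩
      exact hg (a, b)

end

end Pool.Agent.H38.TU
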