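import Pool.Agent.H85.TU.Targets

set_option autoImplicit false

open Set Pool.Agent.H85.TU

namespace Pool.Agent.H38.TU

theorem meas_AD (i j : ℕ) : MeasurableSet {d : ℕ → Bool | AD d i j} := by
  unfold AD
  by_cases h1 : i < 6
  · simp only [h1, if_true]
    exact MeasurableSet.const _
  · by_cases h2 : j < 6
    · simp only [h1, h2, if_true, if_false]
      exact MeasurableSet.const _
    · by_cases h3 : i = 6
      · simp only [h1, h2, if_true, if_false, h3]
        exact measurableSet_eq_fun (measurable_pi_apply (j - 6)) measurable_const
      · simp only [h1, h2, if_false, h3]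
        exact MeasurableSet.const _

theorem meas_Tws {ι : Type} {ar : ι → ℕ} {D : ι → Type} {x : Str ar D ℕ} {T : Dat x} (B : Blk T) :
    MeasurableSet {d : ℕ → Bool | Tws (AD d) B} := by
  have h1 : {d : ℕ → Bool | Tws (AD d) B} =
      ⋃ i, ⋃ j, {d : ℕ → Bool | B.1 = (Q.e i, Q.f j) ∧ AD d i j} := by
    ext d
    simp only [mem_iUnion, Tws, Set.mem_ofPred_eq]
  rw [h1]
  exact MeasurableSet.iUnion fun i => MeasurableSet.iUnion fun j =>
    (MeasurableSet.const _).inter (meas_AD i j)

theorem pf_MES : T_MES := by
  classical
  intro ι ar D _ x T fr hfr i v
  unfold Gst
  by_cases h : ∃ B : Blk T, ∀ k, Mem B (v k)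
  · simp only [h, dite_true]
    set B := h.choose with hB
    have h1 : (fun d : ℕ → Bool => x i fun k => pos (AD d) B (v k)) = fun d =>
        if Tws (AD d) B then
          x i (fun k => match (v k).1 with
            | .inr m => m
            | .inl q => sg T (bp B q))
        else
          x i (fun k => match (v k).1 with
            | .inr m => m
            | .inl q => bp B q) := by
      funext d
      by_cases h2 : Tws (AD d) B
      · simp only [h2, if_true]
        congr 1
        funext k
        unfold pos
        cases (v k).1 with
        | inl q => simp only [h2, if_true]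
        | inr m => rfl
      · simp only [h2, if_false]
        congr 1
        funext k
        unfold pos
        cases (v k).1 with
        | inl q => simp only [h2, if_false]
        | inr m => rfl
    rw [h1]
    exact Measurable.ite (meas_Tws B) measurable_const measurable_const
  · simp only [h, dite_false]
    exact hfr i v

end Pool.Agent.H38.TU
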